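import Pool.Agent.U50.MC.Stm

/-!
# Project MC, package ALLOC (helper796)
-/

set_option autoImplicit false

open scoped Classical

namespace Pool.Agent.U796.MC

open Pool.Agent.U50.MC

/-- the pairs -/
abbrev E : Type := Σ L : ℕ, (Fin L → Fin L → Bool)

/-- the sizes -/
noncomputable def sz (k : ℕ) : ℕ := ((Encodable.decode (α := E) k).map fun e => e.1).getD 0

/-- the starting points -/
noncomputable def RR (n : ℕ) : ℕ := ∑ k ∈ Finset.range n, 2 * sz k

/-- the starting point of the window -/
noncomputable def R0 (e : E) : ℕ := RR (Encodable.encode e)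

theorem sz_enc (e : E) : sz (Encodable.encode e) = e.1 := by
  unfold sz
  rw [Encodable.encodek]
  rfl

theorem RR_mono {m n : ℕ} (h : m ≤ n) : RR m ≤ RR n := by
  unfold RR
  exact Finset.sum_le_sum_of_subset (Finset.range_subset_range.2 h)

theorem RR_succ (n : ℕ) : RR (n + 1) = RR n + 2 * sz n := by
  unfold RR
  rw [Finset.sum_range_succ]

theorem R0_lt (e e' : E) (h : Encodable.encode e < Encodable.encode e') :
    R0 e + 2 * e.1 ≤ R0 e' := by
  have h1 := RR_mono (Nat.succ_le_of_lt h)
  rw [Nat.succ_eq_add_one, RR_succ, sz_enc] at h1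
  exact h1

theorem uniq (e e' : E) (i i' : ℕ) (hi : i < 2 * e.1) (hi' : i' < 2 * e'.1)
    (h : R0 e + i = R0 e' + i') : e = e' := by
  rcases lt_trichotomy (Encodable.encode e) (Encodable.encode e') with h1 | h1 | h1
  · have := R0_lt e e' h1
    omega
  · exact Encodable.encode_injective h1
  · have := R0_lt e' e h1
    omega

/-- the pattern at the place -/
def At (a b : ℕ) : Prop := ∃ (e : E) (i j : Fin e.1), a = R0 e + i ∧ b = R0 e + e.1 + j ∧
  e.2 i j = true

/-- the array -/
noncomputable def W0 (a b : ℕ) : ZMod 3 := if At a b then 1 else 0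

theorem W0_ne {a b : ℕ} (h : W0 a b ≠ 0) : At a b := by
  by_contra h1
  exact h (if_neg h1)

theorem t_ALLOC : S_ALLOC := by
  refine ⟨fun L p => R0 ⟨L, p⟩, W0, fun a => ?_, fun b => ?_, fun a b h => ?_, fun L p i j => ?_⟩
  · by_cases hne : ∃ b, W0 a b ≠ 0
    · obtain ⟨b, hb⟩ := hne
      obtain ⟨e, i, j, h1, h2, h3⟩ := W0_ne hb
      refine (Set.finite_lt_nat (R0 e + 2 * e.1)).subset fun b' hb' => ?_
      obtain ⟨e', i', j', h1', h2', h3'⟩ := W0_ne hb'
      have he : e = e' := uniq e e' i i' (by have := i.2; omega) (by have := i'.2; omega)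
        (by rw [← h1, ← h1'])
      subst he
      have := j'.2
      show b' < _
      omega
    · push Not at hne
      have : {j | W0 a j ≠ 0} = ∅ := by
        ext b
        simp [hne b]
      rw [this]
      exact Set.finite_empty
  · refine (Set.finite_lt_nat b).subset fun a ha => ?_
    obtain ⟨e, i, j, h1, h2, h3⟩ := W0_ne ha
    have := i.2
    show a < b
    omega
  · obtain ⟨e, i, j, h1, h2, h3⟩ := W0_ne h
    have := i.2
    omega
  · unfold W0
    by_cases hp : p i j = true
    · rw [if_pos ⟨⟨L, p⟩, i, j, rfl, rfl, hp⟩, if_pos hp]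
    · rw [if_neg, if_neg hp]
      rintro ⟨e, i', j', h1, h2, h3⟩
      have he : (⟨L, p⟩ : E) = e := uniq ⟨L, p⟩ e i i'
        (by have := i.2; show (i : ℕ) < 2 * L; omega)
        (by have := i'.2; omega) h1
      subst he
      have e1 : i = i' := by
        refine Fin.ext ?_
        have h4 : R0 ⟨L, p⟩ + (i : ℕ) = R0 ⟨L, p⟩ + (i' : ℕ) := h1
        exact Nat.add_left_cancel h4
      have e2 : j = j' := by
        refine Fin.ext ?_
        have h4 : R0 ⟨L, p⟩ + L + (j : ℕ) = R0 ⟨L, p⟩ + L + (j' : ℕ) := h2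
        exact Nat.add_left_cancel h4
      subst e1 e2
      exact hp h3

end Pool.Agent.U796.MC
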