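import Pool.Agent.U50.MC.Stm

/-!
# Project MC, package HOM (helper796)
-/

set_option autoImplicit false

namespace Pool.Agent.U796.MC

open Pool.Agent.U50.MC
open Polynomial

/-- sums of polynomials are polynomials -/
theorem sumpoly (p : ℝ[X]) : ∃ q : ℝ[X], ∀ n : ℕ, q.eval (n : ℝ) =
    ∑ s ∈ Finset.range n, p.eval (s : ℝ) := by
  induction p using Polynomial.induction_on' with
  | add p r hp hr =>
    obtain ⟨a, ha⟩ := hp
    obtain ⟨b, hb⟩ := hr
    refine ⟨a + b, fun n => ?_⟩
    rw [eval_add, ha n, hb n, ← Finset.sum_add_distrib]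
    exact Finset.sum_congr rfl fun s _ => (eval_add).symm
  | monomial m c =>
    refine ⟨C c * ((∑ i ∈ Finset.range (m + 1),
      C (_root_.bernoulli i * ((m + 1).choose i : ℚ) / (m + 1)) * X ^ (m + 1 - i) : ℚ[X]).map
        (algebraMap ℚ ℝ)), fun n => ?_⟩
    rw [eval_mul, eval_C]
    have h1 : ((∑ i ∈ Finset.range (m + 1),
      C (_root_.bernoulli i * ((m + 1).choose i : ℚ) / (m + 1)) * X ^ (m + 1 - i) : ℚ[X])).eval (n : ℚ) =
        ∑ s ∈ Finset.range n, (s : ℚ) ^ m := by
      rw [sum_range_pow, eval_finsetSum]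
      refine Finset.sum_congr rfl fun i _ => ?_
      rw [eval_mul, eval_C, eval_pow, eval_X]
      ring
    have h2 : (((∑ i ∈ Finset.range (m + 1),
      C (_root_.bernoulli i * ((m + 1).choose i : ℚ) / (m + 1)) * X ^ (m + 1 - i) : ℚ[X])).map
        (algebraMap ℚ ℝ)).eval (n : ℝ) = ∑ s ∈ Finset.range n, (s : ℝ) ^ m := by
      have h3 : (n : ℝ) = algebraMap ℚ ℝ (n : ℚ) := by simp
      rw [h3, eval_map_algebraMap, aeval_algebraMap_apply, coe_aeval_eq_eval, h1]
      simp
    rw [h2, Finset.mul_sum]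
    refine Finset.sum_congr rfl fun s _ => ?_
    rw [eval_monomial]

theorem t_HOM : S_HOM := by
  intro d G β hβ
  suffices H : ∀ k : Fin d, ∃ q : ℝ[X], ∀ n : ℕ, β (n : ℤ) k = q.eval (n : ℝ) by
    choose q hq using H
    exact ⟨q, fun n k => hq k n⟩
  have step : ∀ (n : ℕ) (k : Fin d), β ((n + 1 : ℕ) : ℤ) k = β (n : ℤ) k + (β 1 k +
      MvPolynomial.eval (Sum.elim (β (n : ℤ)) (β 1)) (G.P k)) := by
    intro n k
    have h := congrFun (hβ (n : ℤ) 1) k
    push_cast
    rw [h, ← add_assoc]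
    rfl
  have H : ∀ (m : ℕ) (k : Fin d), k.val = m → ∃ q : ℝ[X], ∀ n : ℕ, β (n : ℤ) k = q.eval (n : ℝ) := by
    intro m
    induction m using Nat.strong_induction_on with
    | _ m ih =>
    intro k hk
    have ih' : ∀ j : Fin d, j < k → ∃ q : ℝ[X], ∀ n : ℕ, β (n : ℤ) j = q.eval (n : ℝ) :=
      fun j hj => ih j.val (by rw [← hk]; exact hj) j rfl
    choose! q hq using ih'
    obtain ⟨Q, hQ⟩ := sumpoly (C (β 1 k) +
      MvPolynomial.aeval (Sum.elim q (fun j => (C (β 1 j) : ℝ[X]))) (G.P k))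
    refine ⟨C (β 0 k) + Q, fun n => ?_⟩
    rw [eval_add, eval_C, hQ n]
    induction n with
    | zero => simp
    | succ n ihn =>
      rw [step, ihn, Finset.sum_range_succ, ← add_assoc (β 0 k)]
      congr 1
      rw [eval_add, eval_C]
      congr 1
      have h1 : ∀ P : MvPolynomial (Fin d ⊕ Fin d) ℝ,
          eval (n : ℝ) (MvPolynomial.aeval (Sum.elim q (fun j => (C (β 1 j) : ℝ[X]))) P) =
          MvPolynomial.eval (fun v => eval (n : ℝ) (Sum.elim q (fun j => (C (β 1 j) : ℝ[X])) v))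
            P := by
        intro P
        induction P using MvPolynomial.induction_on with
        | C a => simp
        | add a b ha hb => rw [map_add, eval_add, ha, hb, map_add]
        | mul_X a v ha => rw [map_mul, eval_mul, ha, map_mul, MvPolynomial.aeval_X,
            MvPolynomial.eval_X]
      rw [h1]
      refine MvPolynomial.hom_congr_vars (by ext; simp) (fun v hv _ => ?_) rfl
      rw [MvPolynomial.eval_X, MvPolynomial.eval_X]
      obtain ⟨j, hj, hv'⟩ := G.tri k v hv
      rcases hv' with rfl | rfl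
      · rw [Sum.elim_inl, Sum.elim_inl]
        exact hq j hj n
      · rw [Sum.elim_inr, Sum.elim_inr, eval_C]
  intro k
  exact H k.val k rfl

end Pool.Agent.U796.MC
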